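import Pool.Agent.N327.MD.Fin
import Pool.Agent.H772R2.NS.PubBridge

/-!
# The negated form of the question holds for a Navier-Stokes system with 33 components

We consider systems of `33` divergence free velocity fields `u^0, …, u^32` in a bounded open set
`Ω ⊆ ℝ³` with Dirichlet boundary conditions

`∂ₜu^a + ∑_{b,d} c_{abd} (u^b·∇)u^d - ν Δu^a = -∇p^a + f^a`, `div u^a = 0`, `u^a = 0` on `∂Ω`,

where the real numbers `c_{abd}` are totally symmetric (this gives the energy balance of the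
Navier-Stokes equations) and `c_{0bd} = δ_{bd}` (so that `(w, 0, …, 0)` is a solution if and only if
`w` is a solution of the Navier-Stokes equations).

There are coupling constants `c_{abd}` such that, for every viscosity `ν > 0`, every nonempty
bounded open set `Ω`, every time `T > 0` and all divergence free initial values
`u₀^a ∈ C_c^∞(Ω)³`, there is a force `f ∈ C_c^∞(ℝ × Ω)` for which no weak solution satisfies
`∂ₜu ∈ L²(0,T';V) ∩ L^∞(0,T';H)` for all `T' > 0`: the negated form of the question. There is a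
solution with this property for all `T' < T`, but no weak solution on `[0,T]` satisfies
`∂ₜu ∈ L^{4/3}(0,T;L²)`. If `u₀ = 0`, then the support of `f` is in `(0,∞) × Ω`.
-/

set_option autoImplicit false

open MeasureTheory Set Filter
open scoped InnerProductSpace ENNReal ContDiff

namespace Pool.Agent.Results.MP_fd8964_an.A33DirichletBlowup

open H772R2.NS.Pub

/-- The entry `(i, j)` of a matrix. -/
def entry (A : Mat) (i j : Fin 3) : ℝ := (show EuclideanSpace ℝ (Fin 3 × Fin 3) from A) (i, j)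

/-- The product of a matrix and a vector. If `A = ∇u`, with the entries `∂_j u_i`, then `A v` is
`(v·∇)u`. -/
noncomputable def mulVec (A : Mat) (v : R3) : R3 :=
  WithLp.toLp 2 fun i : Fin 3 => ∑ j : Fin 3, entry A i j * ⟪e j, v⟫_ℝ

/-- The function under the time integral in the weak form of the `a`-th equation, with the test
field `θ(t) φ(x)`: here `u`, `G = ∇u` and `f` are the fields at the time `t`, `p = θ(t)` and
`q = θ'(t)`. -/
noncomputable def integrand {Ω : Set R3} (c : Fin 33 → Fin 33 → Fin 33 → ℝ) (ν : ℝ) (a : Fin 33)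
    (u : Fin 33 → L2 Ω R3) (G : Fin 33 → L2 Ω Mat) (f : Fin 33 → R3 → R3) (φ : R3 → R3)
    (p q : ℝ) : ℝ :=
  -q * (∫ x in Ω, ⟪(u a).fn x, φ x⟫_ℝ)
    + p * ((∑ b, ∑ d, c a b d * ∫ x in Ω, ⟪mulVec ((G d).fn x) ((u b).fn x), φ x⟫_ℝ)
      + ν * (∫ x in Ω, ⟪(G a).fn x, jac φ x⟫_ℝ) - ∫ x in Ω, ⟪f a x, φ x⟫_ℝ)

/-- The fields `u^a`, with `G^a = ∇u^a`, are a weak solution of the system on `[0,T]`:
`u^a ∈ L^∞(0,T;H) ∩ L²(0,T;V)`, and the equations
`d/dt ∫ u^a·φ + ∑_{b,d} c_{abd} ∫ (u^b·∇)u^d·φ + ν ∫ ∇u^a:∇φ = ∫ f^a·φ` hold, for all divergence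
free test fields `φ`, in the sense of distributions on `(0,T)`. -/
structure IsWeakSolution (Ω : Set R3) (c : Fin 33 → Fin 33 → Fin 33 → ℝ) (ν T : ℝ)
    (f : Fin 33 → ℝ → R3 → R3) (u : Fin 33 → ℝ → L2 Ω R3) (G : Fin 33 → ℝ → L2 Ω Mat) : Prop where
  meas : ∀ a, AEStronglyMeasurable (u a) (volume.restrict (Ioo 0 T))
  bdd : ∀ a, ∃ M : ℝ, ∀ᵐ t ∂(volume.restrict (Ioo 0 T)), ‖u a t‖ ≤ M
  grad : ∀ a, ∀ᵐ t ∂(volume.restrict (Ioo 0 T)), (u a t, G a t) ∈ H1graph Ω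
  gradL2 : ∀ a, MemLp (G a) 2 (volume.restrict (Ioo 0 T))
  eqn : ∀ a, ∀ φ, IsTest Ω φ → ∀ θ : ℝ → ℝ, ContDiff ℝ ∞ θ → HasCompactSupport θ →
    tsupport θ ⊆ Ioo 0 T →
    ∫ t in Ioo 0 T, integrand c ν a (fun b => u b t) (fun b => G b t) (fun b => f b t) φ
      (θ t) (deriv θ t) = 0

/-- The fields `u^a` have the initial values `u₀^a` and the time derivatives
`u'^a ∈ L^p(0,T;L²(Ω))`. -/
structure HasTimeDeriv (Ω : Set R3) (p : ℝ≥0∞) (T : ℝ) (u₀ : Fin 33 → L2 Ω R3)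
    (u u' : Fin 33 → ℝ → L2 Ω R3) : Prop where
  mem : ∀ a, MemLp (u' a) p (volume.restrict (Ioo 0 T))
  prim : ∀ a, ∀ᵐ t ∂(volume.restrict (Ioo 0 T)), u a t = u₀ a + ∫ s in (0 : ℝ)..t, u' a s

/-- The fields `u^a` have the initial values `u₀^a` and the time derivatives
`u'^a = ∂ₜu^a ∈ L²(0,T;V) ∩ L^∞(0,T;H)`, and `G'^a = ∇∂ₜu^a`. -/
structure IsRegular (Ω : Set R3) (T : ℝ) (u₀ : Fin 33 → L2 Ω R3) (u u' : Fin 33 → ℝ → L2 Ω R3)
    (G' : Fin 33 → ℝ → L2 Ω Mat) : Prop extends HasTimeDeriv Ω ∞ T u₀ u u' where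
  grad : ∀ a, ∀ᵐ t ∂(volume.restrict (Ioo 0 T)), (u' a t, G' a t) ∈ H1graph Ω
  gradL2 : ∀ a, MemLp (G' a) 2 (volume.restrict (Ioo 0 T))

section bridge

theorem mulVec_eq (A : H772R2.NS.M3) (a : H772R2.NS.E3) :
    (mulVec A a : H772R2.NS.E3) = Pool.Agent.N327.LE.mv A a := by
  have h : ∀ i : Fin 3, ∀ a : H772R2.NS.E3, ⟪(e i : H772R2.NS.E3), a⟫_ℝ = a i := fun i a => by
    rw [inner_e]
  show WithLp.toLp 2 (fun i : Fin 3 => ∑ j : Fin 3, entry A i j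
    * ⟪(e j : H772R2.NS.E3), a⟫_ℝ) = _
  simp only [h]
  rfl

open H772R2.NS in
theorem integrand_eq {Ω : Set E3} (c : Fin 33 → Fin 33 → Fin 33 → ℝ) (ν : ℝ) (a : Fin 33)
    (u : Fin 33 → L2V Ω) (G : Fin 33 → L2M Ω) (f : Fin 33 → E3 → E3) (φ : E3 → E3) (p q : ℝ) :
    integrand (Ω := Ω) c ν a u G f φ p q = -q * (∫ x in Ω, ⟪u a x, φ x⟫_ℝ)
      + p * ((∑ b, ∑ d, c a b d * ∫ x in Ω, ⟪Pool.Agent.N327.LE.mv (G d x) (u b x), φ x⟫_ℝ)
        + ν * (∫ x in Ω, ⟪G a x, H772R2.NS.jac φ x⟫_ℝ) - ∫ x in Ω, ⟪f a x, φ x⟫_ℝ) := by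
  have e1 : ∀ b d, (∫ x in (show Set R3 from Ω), ⟪mulVec (L2.fn (Ω := Ω) (E := Mat) (G d) x)
      (L2.fn (Ω := Ω) (E := R3) (u b) x), (φ : R3 → R3) x⟫_ℝ)
      = ∫ x in Ω, ⟪Pool.Agent.N327.LE.mv (G d x) (u b x), φ x⟫_ℝ := fun b d =>
    integral_congr_ae (μ := (volume : Measure E3).restrict (Ω : Set E3))
      (Eventually.of_forall fun x => congrArg (fun y : E3 => ⟪y, φ x⟫_ℝ)
        (mulVec_eq (G d x) (u b x)))
  have e2 : (∫ x in (show Set R3 from Ω), ⟪L2.fn (Ω := Ω) (E := Mat) (G a) x, Pub.jac φ x⟫_ℝ)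
      = ∫ x in Ω, ⟪G a x, H772R2.NS.jac φ x⟫_ℝ :=
    integral_congr_ae (μ := (volume : Measure E3).restrict (Ω : Set E3))
      (Eventually.of_forall fun x => congrArg (fun y : M3 => ⟪G a x, y⟫_ℝ) (jac_eq φ x))
  have e3 : (∑ b, ∑ d, c a b d * ∫ x in (show Set R3 from Ω),
      ⟪mulVec (L2.fn (Ω := Ω) (E := Mat) (G d) x)
        (L2.fn (Ω := Ω) (E := R3) (u b) x), (φ : R3 → R3) x⟫_ℝ)
      = ∑ b, ∑ d, c a b d * ∫ x in Ω, ⟪Pool.Agent.N327.LE.mv (G d x) (u b x), φ x⟫_ℝ :=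
    Finset.sum_congr rfl fun b _ => Finset.sum_congr rfl fun d _ =>
      congrArg (c a b d * ·) (e1 b d)
  exact congrArg₂ (fun y z => -q * (∫ x in Ω, ⟪u a x, φ x⟫_ℝ)
      + p * (y + ν * z - ∫ x in Ω, ⟪f a x, φ x⟫_ℝ)) e3 e2

end bridge

/-- There are totally symmetric coupling constants `c_{abd}`, with `c_{0bd} = δ_{bd}`, with the
following property. Let `ν > 0`, let `Ω` be a nonempty bounded open set, let `T > 0` and let
`w^0, …, w^32` be divergence free test fields. Then there are smooth forces `f^a` with compact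
support in `ℝ × Ω`, which vanish for `t < T/2` if `w = 0`, such that with the initial values `w`

* no `u` is a weak solution with `∂ₜu ∈ L²(0,T';V) ∩ L^∞(0,T';H)` for all `T' > 0`;
* no weak solution on `[0,T]` satisfies `∂ₜu ∈ L^{4/3}(0,T;L²(Ω))`;
* some `u` is a weak solution with `∂ₜu ∈ L²(0,T';V) ∩ L^∞(0,T';H)` for all `0 < T' < T`. -/
theorem result : ∃ c : Fin 33 → Fin 33 → Fin 33 → ℝ,
    (∀ a b d, c a b d = c b a d ∧ c a b d = c a d b) ∧
    (∀ b d, c 0 b d = if b = d then 1 else 0) ∧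
    ∀ ν : ℝ, 0 < ν → ∀ Ω : Set R3, IsOpen Ω → Bornology.IsBounded Ω → Ω.Nonempty →
    ∀ T : ℝ, 0 < T → ∀ w : Fin 33 → R3 → R3, (∀ a, IsTest Ω (w a)) →
    ∃ f : Fin 33 → ℝ → R3 → R3, (∀ a, ContDiff ℝ ∞ fun z : ℝ × R3 => f a z.1 z.2) ∧
      (∀ a, HasCompactSupport fun z : ℝ × R3 => f a z.1 z.2) ∧
      (∀ a, tsupport (fun z : ℝ × R3 => f a z.1 z.2) ⊆ univ ×ˢ Ω) ∧
      ((∀ a, w a = 0) → ∀ a t, t < T / 2 → f a t = 0) ∧
      ∀ u₀ : Fin 33 → L2 Ω R3, (∀ a, IsClass (u₀ a) (w a)) →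
        (¬ ∃ u G u' G', ∀ T', 0 < T' →
          IsWeakSolution Ω c ν T' f u G ∧ IsRegular Ω T' u₀ u u' G') ∧
        (¬ ∃ u G u', IsWeakSolution Ω c ν T f u G ∧ HasTimeDeriv Ω (4 / 3) T u₀ u u') ∧
        ∃ u G u' G', ∀ T', 0 < T' → T' < T →
          IsWeakSolution Ω c ν T' f u G ∧ IsRegular Ω T' u₀ u u' G' := by
  obtain ⟨c, hc, hc0, H⟩ := Pool.Agent.N327.MD.mid
  refine ⟨c, hc, hc0, ?_⟩
  intro ν hν Ω hΩ hb hne T hT w hw
  obtain ⟨f, f1, f2, f3, f4, H2⟩ := H ν hν Ω hΩ hb hne T hT w fun a => (isTest_iff _).mp (hw a)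
  refine ⟨f, f1, f2, f3, fun hw0 a t ht => f4 hw0 a t (by linarith), ?_⟩
  intro u₀ hu₀
  obtain ⟨K1, K2⟩ := H2 u₀ hu₀
  have hre : ∀ T : ℝ, (volume.restrict (Ioo 0 T) : Measure ℝ) = volume.restrict (Ioc 0 T) :=
    Pool.Agent.N327.MD.restr_eq
  have no : ¬ ∃ u G u', IsWeakSolution Ω c ν T f u G ∧ HasTimeDeriv Ω (4 / 3) T u₀ u u' := by
    rintro ⟨u, G, u', hW, hD⟩
    refine K2 u u' G (fun a => ?_) (fun a => ?_) (fun a => ?_) (fun a => ?_) ?_
    · rw [← hre]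
      exact hD.mem a
    · rw [← hre]
      exact hD.prim a
    · rw [← hre]
      filter_upwards [hW.grad a] with t ht
      exact mem_pub.mpr ht
    · rw [← hre]
      exact hW.gradL2 a
    · intro a φ hφ θ h1 h2 h3
      refine Eq.trans ?_ (hW.eqn a φ ((isTest_iff φ).mpr hφ) θ h1 h2 h3)
      exact integral_congr_ae (Eventually.of_forall fun t =>
        (integrand_eq c ν a (fun b => u b t) (fun b => G b t) (fun b => f b t) φ (θ t)
          (deriv θ t)).symm)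
  refine ⟨?_, no, ?_⟩
  · rintro ⟨u, G, u', G', h⟩
    obtain ⟨hW, hR⟩ := h T hT
    refine no ⟨u, G, u', hW, fun a => ?_, hR.prim⟩
    have hfin : IsFiniteMeasure (volume.restrict (Ioo (0 : ℝ) T) : Measure ℝ) := by
      rw [isFiniteMeasure_restrict]; simp
    exact (hR.mem a).mono_exponent le_top
  · obtain ⟨u, u', z, z', h⟩ := K1
    refine ⟨u, z, u', z', fun T' hT' hT'T => ?_⟩
    obtain ⟨cu, cu', cz, cz', mu, mu', pu, he⟩ := h T' hT' hT'T
    have mem : ∀ {Y : Type} [NormedAddCommGroup Y] {g : ℝ → Y} {p : ℝ≥0∞},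
        ContinuousOn g (Icc 0 T') → MemLp g p (volume.restrict (Ioo 0 T')) := by
      intro Y _ g p hg
      rw [hre]
      exact H772R2.NSG.mem_cont hg
    refine ⟨⟨fun a => (mem (p := 1) (cu a)).aestronglyMeasurable, fun a => ?_, fun a => ?_,
      fun a => mem (cz a), ?_⟩, ⟨⟨fun a => mem (cu' a), fun a => ?_⟩, fun a => ?_,
      fun a => mem (cz' a)⟩⟩
    · obtain ⟨M, hM⟩ := (isCompact_Icc.image_of_continuousOn (cu a)).isBounded.exists_norm_le
      refine ⟨M, ?_⟩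
      filter_upwards [ae_restrict_mem measurableSet_Ioo] with t ht
      exact hM _ ⟨t, ⟨ht.1.le, ht.2.le⟩, rfl⟩
    · filter_upwards [ae_restrict_mem measurableSet_Ioo] with t ht
      exact mem_pub.mp (mu a t ⟨ht.1.le, ht.2.le⟩)
    · intro a φ hφ θ h1 h2 h3
      refine Eq.trans ?_ (he a φ ((isTest_iff φ).mp hφ) θ h1 h2 h3)
      exact integral_congr_ae (Eventually.of_forall fun t =>
        integrand_eq c ν a (fun b => u b t) (fun b => z b t) (fun b => f b t) φ (θ t)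
          (deriv θ t))
    · filter_upwards [ae_restrict_mem measurableSet_Ioo] with t ht
      exact pu a t ⟨ht.1.le, ht.2.le⟩
    · filter_upwards [ae_restrict_mem measurableSet_Ioo] with t ht
      exact mem_pub.mp (mu' a t ⟨ht.1.le, ht.2.le⟩)

end Pool.Agent.Results.MP_fd8964_an.A33DirichletBlowup
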