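import Pool.Agent.N327.AC.Mid
import Pool.Agent.W12.TQ.Iter
import Pool.Agent.W347.TQ.Ode
import Pool.Agent.W52.TQ.Univ
import Pool.Agent.W775.TQ.Dtp
import Pool.Agent.W503.TQ.Est1
import Pool.Agent.W790.TQ.Est2
import Pool.Agent.W52.TQ.Loc
import Pool.Agent.W503.TQ.Uni

/-!
# Velocity and acceleration must be transversal before a blow-up

A regularity criterion, valid up to the boundary, for Leray-Hopf solutions of the Navier-Stokes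
equations with viscosity `ν` in an arbitrary bounded open set `Ω ⊆ ℝ³`, without any regularity of
the boundary. It only restricts the part of the velocity `u` which is perpendicular to its time
derivative `∂ₜu`, and in fact only the triple product `curl ∂ₜu·(∂ₜu × u)`, from above.

Let `τ` be the first singular time. Then it is impossible that for almost every `t` near `τ`

`curl ∂ₜu·(∂ₜu × u) ≤ |curl ∂ₜu| ((θ ν √W + K √(ν/(τ - t)) + w) |∂ₜu| + g)`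

almost everywhere in `Ω`, where `θ, K ≥ 0`, `K² < 3 (1 - θ)`, the potential `W` is form bounded with
the bound one, that is `∫ W φ² ≤ ∫ |∇φ|²` for test functions (for instance
`W(x) = 1/(4 |x - y|²)`), `‖w(t)‖_{L^b(Ω)} ≤ B(t)` with `B ∈ L^a` near `τ`, `2/a + 3/b = 1`,
`a < ∞`, and `‖g(t)‖_{L²(Ω)} ≤ κ ν^{7/4} (τ - t)^{-5/4}`; `κ > 0` depends on `θ` and `K` only. This
is the case, by the inequality of Cauchy and Schwarz, if
`|u × ∂ₜu| ≤ (θ ν √W + K √(ν/(τ - t)) + w) |∂ₜu| + g`. In particular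

* the part of `u` perpendicular to `∂ₜu` does not belong to any Serrin class
  `L^a(t₁,τ; L^b(Ω))`, `2/a + 3/b = 1`, `b > 3`;
* it is not of type one with the constant `K < √3`;
* `‖u × ∂ₜu‖_{L²(Ω)}` is not at most `κ ν^{7/4} (τ - t)^{-5/4}` near `τ`.

The proof: the energy of `v = ∂ₜu` is produced at the rate
`-∫ v·(v·∇)u = ∫ curl v·(v × u)`, and `‖curl v‖ = ‖∇v‖`. The rate at which `‖∂ₜu‖` must grow before
a singular time is known in the library (`(τ - t)^{-3/4}`), as is the energy equality for `∂ₜu`.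
-/

set_option autoImplicit false

open MeasureTheory Set
open scoped InnerProductSpace ENNReal ContDiff

namespace Pool.Agent.Results.MP_fd8964_an.AccelerationCriterion

open H772R2.NS.Pub Pool.Agent.W795.TQ
open Pool.Agent.R462.HC (FormBdd)

/-- The entry `(i, j)` of a matrix. -/
def entry (A : Mat) (i j : Fin 3) : ℝ := (show EuclideanSpace ℝ (Fin 3 × Fin 3) from A) (i, j)

/-- The vector `curl v` from the Jacobian matrix of `v`, which has the entries `∂_j v_i`. -/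
noncomputable def curl (A : Mat) : R3 :=
  WithLp.toLp 2 ![entry A 2 1 - entry A 1 2, entry A 0 2 - entry A 2 0, entry A 1 0 - entry A 0 1]

/-- The vector product `a × b`. -/
noncomputable def cross (a b : R3) : R3 :=
  WithLp.toLp 2 ![⟪e 1, a⟫_ℝ * ⟪e 2, b⟫_ℝ - ⟪e 2, a⟫_ℝ * ⟪e 1, b⟫_ℝ,
    ⟪e 2, a⟫_ℝ * ⟪e 0, b⟫_ℝ - ⟪e 0, a⟫_ℝ * ⟪e 2, b⟫_ℝ,
    ⟪e 0, a⟫_ℝ * ⟪e 1, b⟫_ℝ - ⟪e 1, a⟫_ℝ * ⟪e 0, b⟫_ℝ]

/-- The fields `u` and `v`, with `z = ∇v`, satisfy almost everywhere in `Ω`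
`curl v·(v × u) ≤ |curl v| ((ρ √W + K + w) |v| + g)`, for some potential `W` which is form bounded
with the bound one, and functions `w`, `g` with `‖w‖_{L^b(Ω)} ≤ B` and `‖g‖_{L²(Ω)} ≤ Γ`. -/
def NearlyParallel {Ω : Set R3} (b : ℝ≥0∞) (ρ K B Γ : ℝ) (u v : L2 Ω R3) (z : L2 Ω Mat) : Prop :=
  ∃ W w g : R3 → ℝ, FormBdd Ω W ∧
    AEStronglyMeasurable w (volume.restrict Ω) ∧
    eLpNorm w b (volume.restrict Ω) ≤ ENNReal.ofReal B ∧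
    AEStronglyMeasurable g (volume.restrict Ω) ∧
    eLpNorm g 2 (volume.restrict Ω) ≤ ENNReal.ofReal Γ ∧
    ∀ᵐ x ∂(volume.restrict Ω), ⟪curl (z.fn x), cross (v.fn x) (u.fn x)⟫_ℝ
      ≤ ‖curl (z.fn x)‖ * ((ρ * Real.sqrt (W x) + K + w x) * ‖v.fn x‖ + g x)

theorem cross_eq (a b : H772R2.NS.E3) : (cross a b : H772R2.NS.E3) = Pool.Agent.N327.AC.cr a b := by
  have h : ∀ i : Fin 3, ∀ a : H772R2.NS.E3, ⟪(e i : H772R2.NS.E3), a⟫_ℝ = a i := fun i a => by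
    rw [inner_e]
  show WithLp.toLp 2 ![⟪(e 1 : H772R2.NS.E3), a⟫_ℝ * ⟪(e 2 : H772R2.NS.E3), b⟫_ℝ
      - ⟪(e 2 : H772R2.NS.E3), a⟫_ℝ * ⟪(e 1 : H772R2.NS.E3), b⟫_ℝ,
    ⟪(e 2 : H772R2.NS.E3), a⟫_ℝ * ⟪(e 0 : H772R2.NS.E3), b⟫_ℝ
      - ⟪(e 0 : H772R2.NS.E3), a⟫_ℝ * ⟪(e 2 : H772R2.NS.E3), b⟫_ℝ,
    ⟪(e 0 : H772R2.NS.E3), a⟫_ℝ * ⟪(e 1 : H772R2.NS.E3), b⟫_ℝ
      - ⟪(e 1 : H772R2.NS.E3), a⟫_ℝ * ⟪(e 0 : H772R2.NS.E3), b⟫_ℝ] = _
  simp only [h]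
  rfl

theorem curl_eq (A : H772R2.NS.M3) : (curl A : H772R2.NS.E3) = Pool.Agent.N327.AC.crl A := rfl

/-- Let `θ, K ≥ 0`, `K² < 3 (1 - θ)`. There is a number `κ > 0`, depending on `θ` and `K` only, with
the following property. Let `u` be a Leray-Hopf solution on `[0,T]` with admissible data in a
bounded open set `Ω`. Then `u` is a strong solution on `[0,T]`, or there are a first singular time
`τ ∈ (0,T]` and functions `u' = ∂ₜu`, `G' = ∇∂ₜu` on `(0,τ)` such that for all exponents with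
`2/a + 3/b = 1`, `a < ∞`, all `t₁ < τ` and all `B ∈ L^a(t₁,τ)` it is impossible that for almost every
`t ∈ (t₁,τ)` the fields `u(t)`, `u'(t)` are nearly parallel in the sense of `NearlyParallel`, with
`ρ = θ ν`, the constant `K √(ν/(τ - t))`, the bound `B(t)` in `L^b` and the bound
`κ ν^{7/4} (τ - t)^{-5/4}` in `L²`. -/
theorem result (θ K : ℝ) (hθ : 0 ≤ θ) (hK : 0 ≤ K) (hθK : K ^ 2 < 3 * (1 - θ)) :
    ∃ κ : ℝ, 0 < κ ∧
    ∀ (Ω : Set R3), IsOpen Ω → Bornology.IsBounded Ω → ∀ (ν T : ℝ), 0 < ν → 0 < T →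
    ∀ (F F' : ℝ → L2 Ω Mat), IsH1 T F F' →
    ∀ (u : ℝ → L2 Ω R3) (G : ℝ → L2 Ω Mat), IsLerayHopf Ω ν T F u G →
    ∀ z0 : L2 Ω Mat, (u 0, z0) ∈ H1graph Ω →
    (∃ g : L2 Ω R3, ∀ φ, IsTest Ω φ → rhs ν (u 0) z0 (F 0) φ = ∫ x in Ω, ⟪g.fn x, φ x⟫_ℝ) →
    (∃ u' G1 G', IsStrong Ω ν T F u u' G1 G') ∨
    ∃ τ ∈ Ioc 0 T, ∃ (u' : ℝ → L2 Ω R3) (G1 G' : ℝ → L2 Ω Mat),
      (∀ t ∈ Ioo 0 τ, IsStrong Ω ν t F u u' G1 G') ∧
      ∀ (a b : ℝ≥0∞) (B : ℝ → ℝ) (t₁ : ℝ), 2 / a + 3 / b = 1 → a ≠ ⊤ → t₁ < τ →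
        MemLp B a (volume.restrict (Ioo t₁ τ)) →
        ¬ ∀ᵐ t ∂(volume.restrict (Ioo t₁ τ)), NearlyParallel b (θ * ν)
          (K * Real.sqrt (ν / (τ - t))) (B t) (κ * ν ^ (7 / 4 : ℝ) * (τ - t) ^ (-(5 / 4) : ℝ))
          (u t) (u' t) (G' t) := by
  obtain ⟨κ, hκ, H⟩ := Pool.Agent.N327.AC.mid Pool.Agent.W12.TQ.proof
    Pool.Agent.W347.TQ.proof_ode Pool.Agent.W775.TQ.proof_dtp Pool.Agent.W503.TQ.proof_est1
    Pool.Agent.W790.TQ.proof_est2 Pool.Agent.W52.TQ.proof_loc Pool.Agent.W503.TQ.proof_uni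
    Pool.Agent.W52.TQ.proof_univ hθ hK hθK
  refine ⟨κ, hκ, ?_⟩
  intro Ω hΩ hb ν T hν hT F F' hF u G L z0 h0 hg
  obtain ⟨g, hg'⟩ := hg
  rcases H Ω hΩ hb ν T hν hT F F' hF.memLp hF.prim u G L.meas
    (by
      filter_upwards [L.grad] with t ht
      exact mem_pub.mpr ht) L.gradL2
    (fun φ hφ t ht => L.eqn φ ((isTest_iff φ).mpr hφ) t ht) L.energy z0 (mem_pub.mpr h0)
    ⟨g, fun φ hφ => hg' φ ((isTest_iff φ).mpr hφ)⟩ with h1 | ⟨τ, hτ, u', G1, G', h1, h2⟩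
  · exact Or.inl h1
  refine Or.inr ⟨τ, hτ, u', G1, G', h1, ?_⟩
  intro a b B t₁ hab ha ht₁ hB hyp
  have hch : ∀ t : ℝ, ∃ W w g : R3 → ℝ, NearlyParallel b (θ * ν)
      (K * Real.sqrt (ν / (τ - t))) (B t) (κ * ν ^ (7 / 4 : ℝ) * (τ - t) ^ (-(5 / 4) : ℝ))
      (u t) (u' t) (G' t) → FormBdd Ω W ∧
    AEStronglyMeasurable w (volume.restrict Ω) ∧
    eLpNorm w b (volume.restrict Ω) ≤ ENNReal.ofReal (B t) ∧
    AEStronglyMeasurable g (volume.restrict Ω) ∧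
    eLpNorm g 2 (volume.restrict Ω)
      ≤ ENNReal.ofReal (κ * ν ^ (7 / 4 : ℝ) * (τ - t) ^ (-(5 / 4) : ℝ)) ∧
    ∀ᵐ x ∂(volume.restrict Ω), ⟪curl (L2.fn (Ω := Ω) (E := Mat) (G' t) x), cross (L2.fn (Ω := Ω) (E := R3) (u' t) x) (L2.fn (Ω := Ω) (E := R3) (u t) x)⟫_ℝ
      ≤ ‖curl (L2.fn (Ω := Ω) (E := Mat) (G' t) x)‖ * ((θ * ν * Real.sqrt (W x) + K * Real.sqrt (ν / (τ - t)) + w x)
        * ‖L2.fn (Ω := Ω) (E := R3) (u' t) x‖ + g x) := by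
    intro t
    by_cases h : NearlyParallel b (θ * ν)
      (K * Real.sqrt (ν / (τ - t))) (B t) (κ * ν ^ (7 / 4 : ℝ) * (τ - t) ^ (-(5 / 4) : ℝ))
      (u t) (u' t) (G' t)
    · obtain ⟨W, w, g, h3⟩ := h
      exact ⟨W, w, g, fun _ => h3⟩
    · exact ⟨0, 0, 0, fun h4 => absurd h4 h⟩
  choose W w g hWwg using hch
  refine h2 a b w g B t₁ hab ha ht₁ hB ?_
  filter_upwards [hyp] with t ht
  obtain ⟨k1, k2, k3, k4, k5, k6⟩ := hWwg t ht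
  refine ⟨k2, k3, k4, k5, W t, Pool.Agent.R462.HC.FB.of_pub k1, ?_⟩
  have k6' : ∀ᵐ x ∂((volume : Measure H772R2.NS.E3).restrict (show Set H772R2.NS.E3 from Ω)),
      ⟪(curl (L2.fn (Ω := Ω) (E := Mat) (G' t) x) : H772R2.NS.E3), (cross (L2.fn (Ω := Ω) (E := R3) (u' t) x) (L2.fn (Ω := Ω) (E := R3) (u t) x) : H772R2.NS.E3)⟫_ℝ
      ≤ ‖(curl (L2.fn (Ω := Ω) (E := Mat) (G' t) x) : H772R2.NS.E3)‖ * ((θ * ν * Real.sqrt (W t x)
        + K * Real.sqrt (ν / (τ - t)) + w t x) * ‖(L2.fn (Ω := Ω) (E := R3) (u' t) x : H772R2.NS.E3)‖ + g t x) := k6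
  filter_upwards [k6'] with x hx
  refine le_trans (le_of_eq ?_) hx
  exact congrArg (fun y : H772R2.NS.E3 =>
    ⟪Pool.Agent.N327.AC.crl ((G' t : H772R2.NS.E3 → H772R2.NS.M3) x), y⟫_ℝ) (cross_eq _ _).symm

end Pool.Agent.Results.MP_fd8964_an.AccelerationCriterion
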