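import Pool.Agent.R753.LQ2.D

/-!
# The symmetric `L^p`-Mahler inequality for the `l_q`-balls, except for a bounded set of `(n, q)`

For every `p > 0` there are `q₀` and `n₀` such that the strict inequality
`M_p([-1,1]^n) < M_p(B_q^n)` holds for all `q ≥ 1` and all `n ≥ 2` with `q ≥ q₀` or `n ≥ n₀`.
So the inequality holds for large `q` in all dimensions, and in high dimensions for all `q`
simultaneously, also if `q` grows with the dimension and the ball is close to the cube.

Outline.  If `n/q` is large, then the lower bound for `M_p(B_q^n)` by the geometric mean of the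
cube and the cross-polytope, with the loss `x^x e^{-x} / Γ(1+x)`, `x = n/q`, is sufficient,
uniformly in `q > 1`.  If `n/q` is bounded and `q` is large, then the ball is close to the cube, and
the inequality of Jensen for the maximal density of the cube is used,
`M_p(K)/M_p(Q) ≥ P₀(K)^(1+1/p) P(K)^(-1/p)`, with `P(K) < P₀(K)^(1+p)`: this is an inequality
between values of the Gamma function.
-/

set_option autoImplicit false

open MeasureTheory

namespace Pool.Agent.N327.Shelf.AllLqBalls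

/-- the cube `[-1, 1]^n` -/
def cube (n : ℕ) : Set (EuclideanSpace ℝ (Fin n)) := {x | ∀ i : Fin n, |x i| ≤ 1}

/-- the unit ball `B_q^n` of `l_q^n` -/
def lqBall (q : ℝ) (n : ℕ) : Set (EuclideanSpace ℝ (Fin n)) := {x | ∑ i, |x i| ^ q ≤ 1}

/-- the `L^p` support function `(1/p) log (∫_K exp (p ⟨x, y⟩) dx / |K|)` -/
noncomputable def supportLp (p : ℝ) {n : ℕ} (K : Set (EuclideanSpace ℝ (Fin n)))
    (y : EuclideanSpace ℝ (Fin n)) : ℝ :=
  (1 / p) * Real.log ((∫ x in K, Real.exp (p * inner ℝ x y)) / volume.real K)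

/-- the `L^p` Mahler volume `|K| ∫ exp (-h_{p,K})` -/
noncomputable def mahlerLp (p : ℝ) {n : ℕ} (K : Set (EuclideanSpace ℝ (Fin n))) : ENNReal :=
  volume K * ∫⁻ y : EuclideanSpace ℝ (Fin n), ENNReal.ofReal (Real.exp (-supportLp p K y))

/-- **The strict `L^p`-Mahler inequality for all `l_q`-balls, `q ≥ 1`, in the dimensions `n ≥ 2`,
if `q ≥ q₀(p)` or `n ≥ n₀(p)`.** -/
theorem result (p : ℝ) (hp : 0 < p) :
    ∃ (q₀ : ℝ) (n₀ : ℕ), ∀ (q : ℝ) (n : ℕ), 1 ≤ q → 2 ≤ n → q₀ ≤ q ∨ n₀ ≤ n →
      mahlerLp p (cube n) < mahlerLp p (lqBall q n) := by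
  obtain ⟨q₀, hq₀, h1⟩ := Pool.Agent.R753.LQ2.main1 hp
  obtain ⟨n₀, h2⟩ := Pool.Agent.R753.LQ2.main2 hp
  refine ⟨q₀, n₀, fun q n hq hn h => ?_⟩
  rcases h with h | h
  · exact h1 q h n hn
  · exact h2 n h q hq

end Pool.Agent.N327.Shelf.AllLqBalls
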