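import Pool.Agent.N327.AD.Mid
import Pool.Agent.R462.HC.Main
import Pool.Agent.W12.TQ.Iter
import Pool.Agent.W347.TQ.Ode
import Pool.Agent.W52.TQ.Univ
import Pool.Agent.W775.TQ.Dtp
import Pool.Agent.W503.TQ.Est1
import Pool.Agent.W790.TQ.Est2
import Pool.Agent.W52.TQ.Loc
import Pool.Agent.W503.TQ.Uni

/-!
# Before a blow-up the flow is strongly compressed in the direction of its acceleration

A regularity criterion, valid up to the boundary, for Leray-Hopf solutions `u` of the Navier-Stokes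
equations with viscosity `ν` in an arbitrary bounded open set `Ω ⊆ ℝ³`, without any regularity of
the boundary. In each point it only restricts the rate of strain in one direction, that of the time
derivative `∂ₜu`, and it only restricts it from one side: it bounds the rate of compression
`-e·(∇u)e` in the direction `e = ∂ₜu/|∂ₜu|`.

Let `τ` be the first singular time. Then it is impossible that for almost every `t` near `τ`

`-∂ₜu·(∂ₜu·∇)u ≤ (θ ν W + K/(τ - t) + w) |∂ₜu|² + g`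

almost everywhere in `Ω`, where `0 ≤ θ < 1`, `0 ≤ K < 3/4`, the potential `W` is form bounded with
the bound one, that is `∫ W φ² ≤ ∫ |∇φ|²` for test functions (for instance
`W(x) = 1/(4 |x - y|²)`), `‖w(t)‖_{L^b(Ω)} ≤ B(t)` with `B ∈ L^a` near `τ`, `2/a + 3/b = 2`,
`a < ∞`, and `‖g(t)‖_{L¹(Ω)} ≤ κ ν^{5/2} (τ - t)^{-5/2}`; `κ > 0` depends on `θ` and `K` only. In
particular

* the compression in the direction of `∂ₜu` is in no class `L^a(t₁,τ; L^b(Ω))`, `2/a + 3/b = 2`,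
  `b > 3/2`;
* for each `K < 3/4` it exceeds `K/(τ - t)` at points of `Ω`, for times arbitrarily close to `τ`.
-/

set_option autoImplicit false

open MeasureTheory Set
open scoped InnerProductSpace ENNReal ContDiff

namespace Pool.Agent.Results.MP_fd8964_an.CompressionAlongAcceleration

open H772R2.NS.Pub Pool.Agent.W795.TQ
open Pool.Agent.W795.ES (outer)
open Pool.Agent.R462.HC (FormBdd)

/-- The field `v` and the matrix field `G = ∇u` satisfy almost everywhere in `Ω`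
`-v·(v·∇)u ≤ (ρ W + K + w) |v|² + g`, for some potential `W` which is form bounded with the bound
one, and functions `w`, `g` with `‖w‖_{L^b(Ω)} ≤ B` and `‖g‖_{L¹(Ω)} ≤ Γ`. -/
def WeaklyCompressed {Ω : Set R3} (b : ℝ≥0∞) (ρ K B Γ : ℝ) (G : L2 Ω Mat) (v : L2 Ω R3) : Prop :=
  ∃ W w g : R3 → ℝ, FormBdd Ω W ∧
    AEStronglyMeasurable w (volume.restrict Ω) ∧
    eLpNorm w b (volume.restrict Ω) ≤ ENNReal.ofReal B ∧
    AEStronglyMeasurable g (volume.restrict Ω) ∧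
    eLpNorm g 1 (volume.restrict Ω) ≤ ENNReal.ofReal Γ ∧
    ∀ᵐ x ∂(volume.restrict Ω), -⟪G.fn x, outer (v.fn x)⟫_ℝ
      ≤ (ρ * W x + K + w x) * ‖v.fn x‖ ^ 2 + g x

/-- Let `0 ≤ θ < 1` and `0 ≤ K < 3/4`. There is a number `κ > 0`, depending on `θ` and `K` only,
with the following property. Let `u` be a Leray-Hopf solution on `[0,T]` with admissible data in a
bounded open set `Ω`. Then `u` is a strong solution on `[0,T]`, or there are a first singular time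
`τ ∈ (0,T]` and functions `u' = ∂ₜu`, `G = ∇u`, `G' = ∇∂ₜu` on `(0,τ)` such that for all exponents
with `2/a + 3/b = 2`, `a < ∞`, all `t₁ < τ` and all `B ∈ L^a(t₁,τ)` it is impossible that for almost
every `t ∈ (t₁,τ)` the flow `u(t)` is weakly compressed in the direction of `u'(t)` in the sense of
`WeaklyCompressed`, with `ρ = θ ν`, the constant `K/(τ - t)`, the bound `B(t)` in `L^b` and the
bound `κ ν^{5/2} (τ - t)^{-5/2}` in `L¹`. -/
theorem result (θ K : ℝ) (hθ : 0 ≤ θ) (hθ1 : θ < 1) (hK : 0 ≤ K) (hK1 : K < 3 / 4) :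
    ∃ κ : ℝ, 0 < κ ∧
    ∀ (Ω : Set R3), IsOpen Ω → Bornology.IsBounded Ω → ∀ (ν T : ℝ), 0 < ν → 0 < T →
    ∀ (F F' : ℝ → L2 Ω Mat), IsH1 T F F' →
    ∀ (u : ℝ → L2 Ω R3) (G₀ : ℝ → L2 Ω Mat), IsLerayHopf Ω ν T F u G₀ →
    ∀ z0 : L2 Ω Mat, (u 0, z0) ∈ H1graph Ω →
    (∃ g : L2 Ω R3, ∀ φ, IsTest Ω φ → rhs ν (u 0) z0 (F 0) φ = ∫ x in Ω, ⟪g.fn x, φ x⟫_ℝ) →
    (∃ u' G G', IsStrong Ω ν T F u u' G G') ∨
    ∃ τ ∈ Ioc 0 T, ∃ (u' : ℝ → L2 Ω R3) (G G' : ℝ → L2 Ω Mat),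
      (∀ t ∈ Ioo 0 τ, IsStrong Ω ν t F u u' G G') ∧
      ∀ (a b : ℝ≥0∞) (B : ℝ → ℝ) (t₁ : ℝ), 2 / a + 3 / b = 2 → a ≠ ⊤ → t₁ < τ →
        MemLp B a (volume.restrict (Ioo t₁ τ)) →
        ¬ ∀ᵐ t ∂(volume.restrict (Ioo t₁ τ)), WeaklyCompressed b (θ * ν) (K / (τ - t)) (B t)
          (κ * ν ^ (5 / 2 : ℝ) * (τ - t) ^ (-(5 / 2) : ℝ)) (G t) (u' t) := by
  obtain ⟨κ, hκ, H⟩ := Pool.Agent.N327.AD.mid Pool.Agent.W12.TQ.proof
    Pool.Agent.W347.TQ.proof_ode Pool.Agent.W775.TQ.proof_dtp Pool.Agent.W503.TQ.proof_est1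
    Pool.Agent.W790.TQ.proof_est2 Pool.Agent.W52.TQ.proof_loc Pool.Agent.W503.TQ.proof_uni
    Pool.Agent.W52.TQ.proof_univ hθ hθ1 hK hK1
  refine ⟨κ, hκ, ?_⟩
  intro Ω hΩ hb ν T hν hT F F' hF u G₀ L z0 h0 hg
  obtain ⟨g, hg'⟩ := hg
  rcases H Ω hΩ hb ν T hν hT F F' hF.memLp hF.prim u G₀ L.meas
    (by
      filter_upwards [L.grad] with t ht
      exact mem_pub.mpr ht) L.gradL2
    (fun φ hφ t ht => L.eqn φ ((isTest_iff φ).mpr hφ) t ht) L.energy z0 (mem_pub.mpr h0)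
    ⟨g, fun φ hφ => hg' φ ((isTest_iff φ).mpr hφ)⟩ with h1 | ⟨τ, hτ, u', G, G', h1, h2⟩
  · exact Or.inl h1
  refine Or.inr ⟨τ, hτ, u', G, G', h1, ?_⟩
  intro a b B t₁ hab ha ht₁ hB hyp
  have hch : ∀ t : ℝ, ∃ W w g : R3 → ℝ, WeaklyCompressed b (θ * ν) (K / (τ - t)) (B t)
      (κ * ν ^ (5 / 2 : ℝ) * (τ - t) ^ (-(5 / 2) : ℝ)) (G t) (u' t) → FormBdd Ω W ∧
    AEStronglyMeasurable w (volume.restrict Ω) ∧
    eLpNorm w b (volume.restrict Ω) ≤ ENNReal.ofReal (B t) ∧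
    AEStronglyMeasurable g (volume.restrict Ω) ∧
    eLpNorm g 1 (volume.restrict Ω)
      ≤ ENNReal.ofReal (κ * ν ^ (5 / 2 : ℝ) * (τ - t) ^ (-(5 / 2) : ℝ)) ∧
    ∀ᵐ x ∂(volume.restrict Ω), -⟪L2.fn (Ω := Ω) (E := Mat) (G t) x,
        outer (L2.fn (Ω := Ω) (E := R3) (u' t) x)⟫_ℝ
      ≤ (θ * ν * W x + K / (τ - t) + w x) * ‖L2.fn (Ω := Ω) (E := R3) (u' t) x‖ ^ 2 + g x := by
    intro t
    by_cases h : WeaklyCompressed b (θ * ν) (K / (τ - t)) (B t)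
      (κ * ν ^ (5 / 2 : ℝ) * (τ - t) ^ (-(5 / 2) : ℝ)) (G t) (u' t)
    · obtain ⟨W, w, g, h3⟩ := h
      exact ⟨W, w, g, fun _ => h3⟩
    · exact ⟨0, 0, 0, fun h4 => absurd h4 h⟩
  choose W w g hWwg using hch
  refine h2 a b w g B t₁ hab ha ht₁ hB ?_
  filter_upwards [hyp] with t ht
  obtain ⟨k1, k2, k3, k4, k5, k6⟩ := hWwg t ht
  refine ⟨k2, k3, k4, k5, W t, Pool.Agent.R462.HC.FB.of_pub k1, ?_⟩
  have k6' : ∀ᵐ x ∂((volume : Measure H772R2.NS.E3).restrict (show Set H772R2.NS.E3 from Ω)),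
      -⟪(L2.fn (Ω := Ω) (E := Mat) (G t) x : H772R2.NS.M3),
        (outer (L2.fn (Ω := Ω) (E := R3) (u' t) x) : H772R2.NS.M3)⟫_ℝ
      ≤ (θ * ν * W t x + K / (τ - t) + w t x)
        * ‖(L2.fn (Ω := Ω) (E := R3) (u' t) x : H772R2.NS.E3)‖ ^ 2 + g t x := k6
  filter_upwards [k6'] with x hx
  refine le_trans (le_of_eq ?_) hx
  exact congrArg (fun y : H772R2.NS.M3 =>
    -⟪((G t : H772R2.NS.E3 → H772R2.NS.M3) x), y⟫_ℝ)
    (Pool.Agent.R462.HC.outer_tens ((u' t : H772R2.NS.E3 → H772R2.NS.E3) x)).symm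

end Pool.Agent.Results.MP_fd8964_an.CompressionAlongAcceleration
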