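import Pool.Agent.R210.Q12

/-!
Local regularity for the three-dimensional Navier-Stokes equations (smooth solutions in an open
set, with a force) when the direction of the vorticity, where the vorticity is large, is Hoelder
continuous with an arbitrarily small exponent `β` and a coefficient `c(t)` which is integrable to
the power `(1 + 2 β) / β ^ 2` in time.
-/

set_option autoImplicit false

open MeasureTheory Set Metric
open H459R3.NS W221.NS W221.NS.B

namespace Pool.Agent.Results.MP_6bf1e5_an.LocalDirectionCoherence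

/-- The Euclidean length of a vector of `ℝ³`. -/
noncomputable def len (a : V) : ℝ := Real.sqrt (∑ i, a i ^ 2)

/-- The curl of a vector field. -/
noncomputable def curl (v : V → V) (x : V) : V :=
  ![pd 1 (fun y => v y 2) x - pd 2 (fun y => v y 1) x,
    pd 2 (fun y => v y 0) x - pd 0 (fun y => v y 2) x,
    pd 0 (fun y => v y 1) x - pd 1 (fun y => v y 0) x]

/-- For all points `x`, `y` of `U` at which the length of `W` is greater than `K` the unit vectors
`ξ = W / |W|` satisfy `|ξ(x) - ξ(y)| ≤ c |x - y| ^ β` (the denominators are cleared). -/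
def DirectionHoelder (W : V → V) (K c β : ℝ) (U : Set V) : Prop := ∀ x ∈ U, ∀ y ∈ U,
  K < len (W x) → K < len (W y) →
    len (len (W y) • W x - len (W x) • W y) ≤ c * len (x - y) ^ β * (len (W x) * len (W y))

/-- At almost every time of an interval `(T₁, T)` the direction of the vorticity is Hoelder
continuous with exponent `β` near `x₀`, where the vorticity is large, with a coefficient `c(t)`
whose power `(1 + 2 β) / β ^ 2` is integrable. -/
def CoherentNear (T β : ℝ) (u : ℝ → V → V) (x₀ : V) : Prop := ∃ (K r T₁ : ℝ) (c : ℝ → ℝ),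
  0 < r ∧ 0 ≤ T₁ ∧ T₁ < T ∧
  MemLp c (ENNReal.ofReal ((1 + 2 * β) / β ^ 2)) (volume.restrict (Ioo T₁ T)) ∧
  ∀ᵐ t ∂(volume.restrict (Ioo T₁ T)), DirectionHoelder (curl (u t)) K (c t) β (ball x₀ r)

/-- The energy and the dissipation of a periodic solution are finite, in a ball of radius `3`. -/
lemma peri_local {ν T F : ℝ} {u : ℝ → V → V} {p : ℝ → V → ℝ} {f : ℝ → V → V} (hν : 0 < ν)
    (hT : 0 < T) (hu' : IsSolF ν T F u p f) : ∃ E : ℝ,
    OSolF ν T E |F| (ball 0 3) u p f ∧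
      ∫⁻ t in Ioo 0 T, ∫⁻ y in ball (0 : V) 3, ENNReal.ofReal (gsq (u t) y) ≠ ⊤ := by
  obtain ⟨h5a, h5b⟩ := p_pero
  have hu : IsSolF ν T |F| u p f :=
    { hu' with force := fun t ht => bd3_mono (le_abs_self F) (hu'.force t ht) }
  obtain ⟨⟨E, hE, hEn⟩, hint⟩ := p_pen3 ν T |F| u p f hν hT (abs_nonneg F) hu
  have hO : OSolF ν T (15 * E) |F| (ball 0 3) u p f := h5a ν T E |F| u p f hT hE hu hEn
  have hsp : ∀ t ∈ Ioo 0 T, SPV (u t) := fun t ht =>
    ⟨slice_ico hu.smooth_u ⟨ht.1.le, ht.2⟩, hu.per_u t ⟨ht.1.le, ht.2⟩⟩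
  have hfin : ∫⁻ t in Ioo 0 T, ∫⁻ y in ball (0 : V) 3, ENNReal.ofReal (gsq (u t) y) ≠ ⊤ := by
    have h1 : ∫⁻ t in Ioo 0 T, ∫⁻ y in ball (0 : V) 3, ENNReal.ofReal (gsq (u t) y)
        = ∫⁻ t in Ioo 0 T, ENNReal.ofReal (216 * enstrophy (u t)) := by
      apply setLIntegral_congr_fun measurableSet_Ioo
      intro t ht
      exact h5b _ (hsp t ht)
    rw [h1]
    exact ((hint.const_mul 216).lintegral_lt_top).ne
  exact ⟨15 * E, hO, hfin⟩

/-- Let `0 < β ≤ 1`.

* Let `(u, p)` be a smooth solution of the Navier-Stokes equations with viscosity `ν > 0` and force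
  `f` in `(0, T) × Ω`, `Ω` an open subset of `ℝ³`, with bounded energy and finite dissipation in
  `Ω`. Then no point `x₀` of `Ω` at which `CoherentNear T β u x₀` holds is singular at the time `T`:
  `u` is bounded in `(T - δ, T) × ball x₀ δ` for some `δ > 0`.
* A smooth `1`-periodic solution on `[0, T)` with `CoherentNear T β u x₀` for all `x₀` is bounded. -/
theorem result (β : ℝ) (hβ0 : 0 < β) (hβ1 : β ≤ 1) :
    (∀ (ν T E F : ℝ) (Ω : Set V) (u : ℝ → V → V) (p : ℝ → V → ℝ) (f : ℝ → V → V), 0 < ν →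
      OSolF ν T E F Ω u p f →
      ∫⁻ t in Ioo 0 T, ∫⁻ y in Ω, ENNReal.ofReal (gsq (u t) y) ≠ ⊤ →
      ∀ x₀ ∈ Ω, CoherentNear T β u x₀ →
        ∃ δ B : ℝ, 0 < δ ∧ ∀ t ∈ Ioo (T - δ) T, ∀ y ∈ ball x₀ δ, ‖u t y‖ ≤ B) ∧
    ∀ (ν T F : ℝ) (u : ℝ → V → V) (p : ℝ → V → ℝ) (f : ℝ → V → V), 0 < ν → 0 < T →
      IsSolF ν T F u p f → (∀ x₀ ∈ cube, CoherentNear T β u x₀) →
        ∃ M : ℝ, ∀ t ∈ Ico 0 T, ∀ x i, |u t x i| ≤ M := by
  have main : ∀ (ν T E F : ℝ) (Ω : Set V) (u : ℝ → V → V) (p : ℝ → V → ℝ) (f : ℝ → V → V),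
      0 < ν → OSolF ν T E F Ω u p f →
      ∫⁻ t in Ioo 0 T, ∫⁻ y in Ω, ENNReal.ofReal (gsq (u t) y) ≠ ⊤ →
      ∀ x₀ ∈ Ω, CoherentNear T β u x₀ → ¬ Sing T u x₀ := by
    rintro ν T E F Ω u p f hν h hfin x₀ hx₀ ⟨K, r, T₁, c, hr, hT₁, hT, hc, hdir⟩
    exact Pool.Agent.R210.local_reg hν h hfin hx₀ hβ0 hβ1 hr hT₁ hT hc hdir
  refine ⟨fun ν T E F Ω u p f hν h hfin x₀ hx₀ hco => ?_, fun ν T F u p f hν hT h hco => ?_⟩
  · have h1 := main ν T E F Ω u p f hν h hfin x₀ hx₀ hco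
    rw [Sing] at h1
    push Not at h1
    obtain ⟨δ, hδ, B, hB⟩ := h1
    exact ⟨δ, B, hδ, hB⟩
  · by_contra hcon
    obtain ⟨x₀, hx₀, hS⟩ := Pool.Agent.R210.sing_exists hT h.smooth_u.continuousOn h.per_u (by
      rintro ⟨M, hM⟩
      exact hcon ⟨M, fun t ht x i => (norm_le_pi_norm (u t x) i).trans (hM t ht x)⟩)
    obtain ⟨E, hO, hfin⟩ := peri_local hν hT h
    exact main ν T E |F| (ball 0 3) u p f hν hO hfin x₀ (cube_sub hx₀) (hco x₀ hx₀) hS

end Pool.Agent.Results.MP_6bf1e5_an.LocalDirectionCoherence
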